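import Mathlib

/-!
# Linear independence of the images of a basis of a number field in a matrix algebra
-/

set_option autoImplicit false

open Matrix

namespace Pool.Agent.Y641.SI

theorem trd_gen {E K : Type*} [Field E] [Algebra ℚ E] [FiniteDimensional ℚ E] [Field K]
    [CharZero K] (N n : ℕ) (hn : 0 < n) (ε : E →+* Matrix (Fin N) (Fin N) K)
    (h : ∀ a : E, (ε a).trace = (n : K) * ((Algebra.trace ℚ E a : ℚ) : K)) :
    Module.finrank ℚ E ≤ Module.finrank K (Submodule.span K (Set.range ε)) := by
  classical
  let b := Module.finBasis ℚ E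
  have hdet : (Algebra.traceMatrix ℚ b).det ≠ 0 := by
    rw [← Algebra.discr_def]
    exact Algebra.discr_not_zero_of_basis ℚ b
  have hdet' : ((Algebra.traceMatrix ℚ b).map (Rat.castHom K)).det ≠ 0 := by
    have e := RingHom.map_det (Rat.castHom K) (Algebra.traceMatrix ℚ b)
    have e2 : (Rat.castHom K).mapMatrix (Algebra.traceMatrix ℚ b) =
        (Algebra.traceMatrix ℚ b).map (Rat.castHom K) := rfl
    rw [← e2, ← e]
    exact (map_ne_zero _).2 hdet
  have hn' : (n : K) ≠ 0 := Nat.cast_ne_zero.2 hn.ne'
  have hli : LinearIndependent K fun i => ε (b i) := by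
    rw [Fintype.linearIndependent_iff]
    intro g hg
    have h1 : ((Algebra.traceMatrix ℚ b).map (Rat.castHom K)) *ᵥ g = 0 := by
      funext j
      have h2 : ((∑ i, g i • ε (b i)) * ε (b j)).trace = 0 := by
        rw [hg, zero_mul, Matrix.trace_zero]
      rw [Finset.sum_mul, Matrix.trace_sum] at h2
      have h3 : ∀ i, (g i • ε (b i) * ε (b j)).trace =
          (n : K) * (((Algebra.traceMatrix ℚ b).map (Rat.castHom K)) j i * g i) := by
        intro i
        rw [smul_mul_assoc, Matrix.trace_smul, ← map_mul, h, Matrix.map_apply,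
          Algebra.traceMatrix_apply, Algebra.traceForm_apply, mul_comm (b j) (b i), smul_eq_mul]
        show g i * ((n : K) * ((Algebra.trace ℚ E (b i * b j) : ℚ) : K)) =
          (n : K) * (((Algebra.trace ℚ E (b i * b j) : ℚ) : K) * g i)
        ring
      rw [Finset.sum_congr rfl fun i _ => h3 i, ← Finset.mul_sum] at h2
      rcases mul_eq_zero.1 h2 with h4 | h4
      · exact absurd h4 hn'
      · rw [Matrix.mulVec, dotProduct]
        exact h4
    have h5 := Matrix.eq_zero_of_mulVec_eq_zero hdet' h1
    intro i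
    rw [h5]
    rfl
  have h6 := finrank_span_eq_card hli
  rw [Fintype.card_fin] at h6
  rw [← h6]
  apply Submodule.finrank_mono
  apply Submodule.span_mono
  rintro _ ⟨i, rfl⟩
  exact ⟨b i, rfl⟩

end Pool.Agent.Y641.SI
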