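import Pool.Agent.Y142.SI.Stm
import Pool.Agent.Y641.SI.Trd0

/-!
# Project Y142-SI, task TRD
-/

set_option autoImplicit false

namespace Pool.Agent.Y641.SI

theorem t : Pool.Agent.Y142.SI.S_TRD := by
  intro ℓ _ N n E hE hn ε h
  exact trd_gen N n hn ε h

end Pool.Agent.Y641.SI
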